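import Pool.Agent.helper14.NR.E6b.PN5

/-!
Generated: certificates.
-/

namespace Pool.Agent.helper14.NR.E6b

open Pool.Agent.helper31.IA (Z)
open Pool.Agent.helper31.IX (Op XOps runX Cov CovD cov_split covD_split)
open Pool.Agent.helper31.IC (TD)
open Pool.Agent.helper63.RG (reloc)
open Pool.Agent.helper63.NF hiding TD
open Pool.Agent.helper14.CF (xE covD_E)
open Pool.Agent.helper14.NR (share)

mutual
theorem A5_c0_t8 : CovD 1 gA5 [(146028888064, 8589934592), (292057776128, 17179869184), (343597383680, 343597383680)] :=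
  covD_E kA5_eq (.n 2 (.n 0 (.n 2 (.n 2 (.l 0) (.l 0)) (.n 2 (.l 0) (.l 0))) (.n 2 (.n 2 (.l 0) (.l 0)) (.n 2 (.l 0) (.l 0)))) (.n 2 (.n 0 (.n 2 (.l 0) (.l 0)) (.n 2 (.l 0) (.l 0))) (.n 2 (.n 0 (.l 0) (.l 0)) (.l 0))))
    [(146028888064, 8589934592), (292057776128, 17179869184), (343597383680, 343597383680)] rfl (by decide +kernel)
theorem A5_c0_t9 : CovD 1 gA5 [(146028888064, 8589934592), (292057776128, 17179869184), (1030792151040, 343597383680)] :=
  covD_E kA5_eq (.n 2 (.n 2 (.n 0 (.l 0) (.l 0)) (.l 0)) (.n 2 (.l 0) (.l 0)))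
    [(146028888064, 8589934592), (292057776128, 17179869184), (1030792151040, 343597383680)] rfl (by decide +kernel)
end

mutual
theorem A5_c0_t10 : CovD 1 gA5 [(146028888064, 8589934592), (292057776128, 17179869184), (2061584302080, 687194767360)] :=
  covD_E kA5_eq (.n 2 (.n 0 (.n 2 (.l 0) (.l 0)) (.n 2 (.l 0) (.l 0))) (.n 2 (.l 0) (.l 0)))
    [(146028888064, 8589934592), (292057776128, 17179869184), (2061584302080, 687194767360)] rfl (by decide +kernel)
theorem A5_c0_t13 : CovD 1 gA5 [(146028888064, 8589934592), (326417514496, 17179869184), (343597383680, 343597383680)] :=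
  covD_E kA5_eq (.n 2 (.n 0 (.n 2 (.n 2 (.l 0) (.l 0)) (.n 2 (.l 0) (.l 0))) (.n 2 (.n 2 (.l 0) (.l 0)) (.n 2 (.l 0) (.l 0)))) (.n 2 (.n 2 (.n 0 (.l 0) (.l 0)) (.l 0)) (.n 0 (.l 0) (.l 0))))
    [(146028888064, 8589934592), (326417514496, 17179869184), (343597383680, 343597383680)] rfl (by decide +kernel)
end

mutual
theorem A5_c0_t14 : CovD 1 gA5 [(146028888064, 8589934592), (326417514496, 17179869184), (1030792151040, 343597383680)] :=
  covD_E kA5_eq (.n 2 (.n 2 (.n 0 (.l 0) (.l 0)) (.l 0)) (.n 0 (.l 0) (.l 0)))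
    [(146028888064, 8589934592), (326417514496, 17179869184), (1030792151040, 343597383680)] rfl (by decide +kernel)
theorem A5_c0_t15 : CovD 1 gA5 [(146028888064, 8589934592), (326417514496, 17179869184), (2061584302080, 687194767360)] :=
  covD_E kA5_eq (.n 2 (.n 2 (.n 0 (.l 0) (.l 0)) (.l 0)) (.n 2 (.l 0) (.l 0)))
    [(146028888064, 8589934592), (326417514496, 17179869184), (2061584302080, 687194767360)] rfl (by decide +kernel)
end

mutual
theorem A5_c0_t16 : CovD 1 gA5 [(146028888064, 8589934592), (309237645312, 34359738368), (4123168604160, 1374389534720)] :=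
  covD_E kA5_eq (.n 0 (.n 2 (.n 2 (.n 0 (.l 0) (.l 0)) (.l 0)) (.n 2 (.l 0) (.n 0 (.l 0) (.l 0)))) (.n 2 (.n 2 (.n 0 (.l 0) (.l 0)) (.l 0)) (.n 2 (.l 0) (.l 0))))
    [(146028888064, 8589934592), (309237645312, 34359738368), (4123168604160, 1374389534720)] rfl (by decide +kernel)
theorem A5_c0_t18 : CovD 1 gA5 [(141733920768, 4294967296), (309237645312, 34359738368), (8246337208320, 2748779069440)] :=
  covD_E kA5_eq (.n 2 (.n 2 (.n 2 (.n 2 (.l 0) (.l 0)) (.n 0 (.n 0 (.l 1) (.l 0)) (.l 0))) (.n 0 (.n 1 (.l 1) (.l 1)) (.n 1 (.l 0) (.l 0)))) (.n 2 (.n 2 (.l 1) (.l 1)) (.l 1)))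
    [(141733920768, 4294967296), (309237645312, 34359738368), (8246337208320, 2748779069440)] rfl (by decide +kernel)
end

mutual
theorem A5_c0_t19 : CovD 1 gA5 [(150323855360, 4294967296), (309237645312, 34359738368), (8246337208320, 2748779069440)] :=
  covD_E kA5_eq (.n 2 (.n 2 (.n 0 (.l 0) (.l 0)) (.l 0)) (.n 0 (.l 0) (.l 0)))
    [(150323855360, 4294967296), (309237645312, 34359738368), (8246337208320, 2748779069440)] rfl (by decide +kernel)
theorem A5_c0_t24 : CovD 1 gA5 [(146028888064, 8589934592), (360777252864, 17179869184), (687194767360, 687194767360)] :=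
  covD_E kA5_eq (.n 2 (.n 2 (.n 2 (.n 2 (.l 0) (.l 0)) (.n 2 (.l 0) (.l 0))) (.n 2 (.n 2 (.l 0) (.l 0)) (.n 0 (.l 0) (.l 0)))) (.n 2 (.n 2 (.n 0 (.l 0) (.l 0)) (.l 0)) (.n 0 (.l 0) (.l 0))))
    [(146028888064, 8589934592), (360777252864, 17179869184), (687194767360, 687194767360)] rfl (by decide +kernel)
end

mutual
theorem A5_c0_t25 : CovD 1 gA5 [(146028888064, 8589934592), (360777252864, 17179869184), (2061584302080, 687194767360)] :=
  covD_E kA5_eq (.n 2 (.n 2 (.l 0) (.l 0)) (.n 0 (.l 0) (.l 0)))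
    [(146028888064, 8589934592), (360777252864, 17179869184), (2061584302080, 687194767360)] rfl (by decide +kernel)
theorem A5_c0_t26 : CovD 1 gA5 [(146028888064, 8589934592), (395136991232, 17179869184), (1374389534720, 1374389534720)] :=
  covD_E kA5_eq (.n 2 (.n 2 (.n 2 (.n 2 (.n 2 (.l 0) (.l 0)) (.n 2 (.l 0) (.l 0))) (.n 0 (.n 2 (.l 0) (.l 0)) (.n 2 (.l 0) (.l 0)))) (.n 2 (.n 2 (.l 0) (.l 0)) (.n 0 (.l 0) (.l 0)))) (.n 2 (.n 2 (.l 0) (.l 0)) (.n 0 (.l 0) (.l 0))))
    [(146028888064, 8589934592), (395136991232, 17179869184), (1374389534720, 1374389534720)] rfl (by decide +kernel)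
end

mutual
theorem A5_c0_t27 : CovD 1 gA5 [(146028888064, 8589934592), (377957122048, 34359738368), (4123168604160, 1374389534720)] :=
  covD_E kA5_eq (.n 0 (.n 2 (.n 2 (.l 0) (.l 0)) (.n 2 (.l 0) (.l 0))) (.n 2 (.n 2 (.l 0) (.l 0)) (.n 0 (.l 0) (.l 0))))
    [(146028888064, 8589934592), (377957122048, 34359738368), (4123168604160, 1374389534720)] rfl (by decide +kernel)
theorem A5_c0_t28 : CovD 1 gA5 [(146028888064, 8589934592), (377957122048, 34359738368), (8246337208320, 2748779069440)] :=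
  covD_E kA5_eq (.n 2 (.n 2 (.n 2 (.l 0) (.l 0)) (.n 0 (.n 2 (.l 0) (.l 0)) (.l 0))) (.n 0 (.n 0 (.n 2 (.l 1) (.l 1)) (.n 0 (.l 0) (.l 0))) (.n 0 (.l 0) (.l 0))))
    [(146028888064, 8589934592), (377957122048, 34359738368), (8246337208320, 2748779069440)] rfl (by decide +kernel)
end

mutual
theorem A5_c0_t34 : CovD 1 gA5 [(146028888064, 8589934592), (429496729600, 17179869184), (687194767360, 687194767360)] :=
  covD_E kA5_eq (.n 2 (.n 2 (.n 2 (.n 2 (.l 0) (.l 0)) (.n 0 (.l 0) (.l 0))) (.n 0 (.n 2 (.l 0) (.l 0)) (.n 2 (.l 0) (.l 0)))) (.n 2 (.n 2 (.l 0) (.l 0)) (.n 0 (.l 0) (.l 0))))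
    [(146028888064, 8589934592), (429496729600, 17179869184), (687194767360, 687194767360)] rfl (by decide +kernel)
theorem A5_c0_t35 : CovD 1 gA5 [(146028888064, 8589934592), (463856467968, 17179869184), (687194767360, 687194767360)] :=
  covD_E kA5_eq (.n 2 (.n 2 (.n 0 (.n 2 (.l 0) (.l 0)) (.n 2 (.l 0) (.l 0))) (.n 2 (.n 0 (.l 0) (.l 0)) (.l 0))) (.n 2 (.n 2 (.l 0) (.l 0)) (.n 0 (.l 0) (.l 0))))
    [(146028888064, 8589934592), (463856467968, 17179869184), (687194767360, 687194767360)] rfl (by decide +kernel)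
end

mutual
theorem A5_c0_t36 : CovD 1 gA5 [(146028888064, 8589934592), (446676598784, 34359738368), (2061584302080, 687194767360)] :=
  covD_E kA5_eq (.n 2 (.n 0 (.n 2 (.l 0) (.l 0)) (.n 2 (.l 0) (.l 0))) (.n 2 (.l 0) (.l 0)))
    [(146028888064, 8589934592), (446676598784, 34359738368), (2061584302080, 687194767360)] rfl (by decide +kernel)
theorem A5_c0_t37 : CovD 1 gA5 [(146028888064, 8589934592), (446676598784, 34359738368), (4123168604160, 1374389534720)] :=
  covD_E kA5_eq (.n 2 (.n 0 (.n 2 (.l 0) (.l 0)) (.n 2 (.l 0) (.l 0))) (.n 2 (.l 0) (.l 0)))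
    [(146028888064, 8589934592), (446676598784, 34359738368), (4123168604160, 1374389534720)] rfl (by decide +kernel)
end

mutual
theorem A5_c0_t38 : CovD 1 gA5 [(146028888064, 8589934592), (446676598784, 34359738368), (8246337208320, 2748779069440)] :=
  covD_E kA5_eq (.n 2 (.n 2 (.n 0 (.l 0) (.l 0)) (.l 0)) (.n 2 (.l 0) (.l 0)))
    [(146028888064, 8589934592), (446676598784, 34359738368), (8246337208320, 2748779069440)] rfl (by decide +kernel)
theorem A5_c0_t43 : CovD 1 gA5 [(146028888064, 8589934592), (515396075520, 34359738368), (343597383680, 343597383680)] :=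
  covD_E kA5_eq (.n 1 (.n 2 (.n 0 (.n 2 (.l 0) (.l 0)) (.n 2 (.l 0) (.l 0))) (.n 2 (.n 0 (.l 0) (.l 0)) (.l 0))) (.n 2 (.n 0 (.n 2 (.l 0) (.l 0)) (.n 2 (.l 0) (.l 0))) (.n 2 (.l 0) (.l 0))))
    [(146028888064, 8589934592), (515396075520, 34359738368), (343597383680, 343597383680)] rfl (by decide +kernel)
end

mutual
theorem A5_c0_t44 : CovD 1 gA5 [(146028888064, 8589934592), (515396075520, 34359738368), (1030792151040, 343597383680)] :=
  covD_E kA5_eq (.n 0 (.n 2 (.n 2 (.l 0) (.l 0)) (.l 0)) (.n 2 (.n 1 (.l 0) (.l 0)) (.l 0)))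
    [(146028888064, 8589934592), (515396075520, 34359738368), (1030792151040, 343597383680)] rfl (by decide +kernel)
theorem A5_c0_t45 : CovD 1 gA5 [(146028888064, 8589934592), (515396075520, 34359738368), (2061584302080, 687194767360)] :=
  covD_E kA5_eq (.n 0 (.n 2 (.n 2 (.l 0) (.l 0)) (.l 0)) (.n 2 (.n 2 (.l 0) (.l 0)) (.l 0)))
    [(146028888064, 8589934592), (515396075520, 34359738368), (2061584302080, 687194767360)] rfl (by decide +kernel)
end

mutual
theorem A5_c0_t46 : CovD 1 gA5 [(146028888064, 8589934592), (515396075520, 34359738368), (4123168604160, 1374389534720)] :=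
  covD_E kA5_eq (.n 2 (.n 2 (.n 0 (.l 0) (.l 0)) (.l 0)) (.n 0 (.l 0) (.l 0)))
    [(146028888064, 8589934592), (515396075520, 34359738368), (4123168604160, 1374389534720)] rfl (by decide +kernel)
theorem A5_c0_t47 : CovD 1 gA5 [(146028888064, 8589934592), (515396075520, 34359738368), (8246337208320, 2748779069440)] :=
  covD_E kA5_eq (.n 2 (.n 2 (.n 0 (.l 0) (.l 0)) (.l 0)) (.n 0 (.l 0) (.l 0)))
    [(146028888064, 8589934592), (515396075520, 34359738368), (8246337208320, 2748779069440)] rfl (by decide +kernel)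
end

mutual
theorem A5_c0_t55 : CovD 1 gA5 [(163208757248, 8589934592), (292057776128, 17179869184), (343597383680, 343597383680)] :=
  covD_E kA5_eq (.n 2 (.n 0 (.n 2 (.n 2 (.l 0) (.l 0)) (.n 2 (.l 0) (.l 0))) (.n 2 (.n 2 (.l 0) (.l 0)) (.n 2 (.l 0) (.l 0)))) (.n 2 (.n 0 (.n 2 (.l 0) (.l 0)) (.n 2 (.l 0) (.l 0))) (.n 2 (.l 0) (.l 0))))
    [(163208757248, 8589934592), (292057776128, 17179869184), (343597383680, 343597383680)] rfl (by decide +kernel)
theorem A5_c0_t56 : CovD 1 gA5 [(163208757248, 8589934592), (292057776128, 17179869184), (1030792151040, 343597383680)] :=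
  covD_E kA5_eq (.n 2 (.n 2 (.n 0 (.l 0) (.l 0)) (.l 0)) (.n 2 (.l 0) (.l 0)))
    [(163208757248, 8589934592), (292057776128, 17179869184), (1030792151040, 343597383680)] rfl (by decide +kernel)
end

mutual
theorem A5_c0_t57 : CovD 1 gA5 [(163208757248, 8589934592), (292057776128, 17179869184), (2061584302080, 687194767360)] :=
  covD_E kA5_eq (.n 2 (.n 0 (.n 2 (.l 0) (.l 0)) (.n 2 (.l 0) (.l 0))) (.n 2 (.l 0) (.l 0)))
    [(163208757248, 8589934592), (292057776128, 17179869184), (2061584302080, 687194767360)] rfl (by decide +kernel)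
theorem A5_c0_t58 : CovD 1 gA5 [(163208757248, 8589934592), (292057776128, 17179869184), (4123168604160, 1374389534720)] :=
  covD_E kA5_eq (.n 2 (.n 2 (.n 0 (.l 0) (.l 0)) (.l 0)) (.n 0 (.l 0) (.l 0)))
    [(163208757248, 8589934592), (292057776128, 17179869184), (4123168604160, 1374389534720)] rfl (by decide +kernel)
end

mutual
theorem A5_c0_t59 : CovD 1 gA5 [(163208757248, 8589934592), (292057776128, 17179869184), (8246337208320, 2748779069440)] :=
  covD_E kA5_eq (.n 2 (.n 2 (.n 0 (.l 0) (.l 0)) (.l 0)) (.n 0 (.l 0) (.l 0)))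
    [(163208757248, 8589934592), (292057776128, 17179869184), (8246337208320, 2748779069440)] rfl (by decide +kernel)
theorem A5_c0_t64 : CovD 1 gA5 [(163208757248, 8589934592), (326417514496, 17179869184), (343597383680, 343597383680)] :=
  covD_E kA5_eq (.n 2 (.n 0 (.n 2 (.n 2 (.l 0) (.l 0)) (.n 2 (.l 0) (.l 0))) (.n 2 (.n 2 (.l 0) (.l 0)) (.n 2 (.l 0) (.l 0)))) (.n 2 (.n 2 (.l 0) (.l 0)) (.n 0 (.l 0) (.l 0))))
    [(163208757248, 8589934592), (326417514496, 17179869184), (343597383680, 343597383680)] rfl (by decide +kernel)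
end

mutual
theorem A5_c0_t65 : CovD 1 gA5 [(163208757248, 8589934592), (326417514496, 17179869184), (1030792151040, 343597383680)] :=
  covD_E kA5_eq (.n 2 (.n 2 (.n 0 (.l 0) (.l 0)) (.l 0)) (.n 0 (.l 0) (.l 0)))
    [(163208757248, 8589934592), (326417514496, 17179869184), (1030792151040, 343597383680)] rfl (by decide +kernel)
theorem A5_c0_t66 : CovD 1 gA5 [(163208757248, 8589934592), (326417514496, 17179869184), (2061584302080, 687194767360)] :=
  covD_E kA5_eq (.n 2 (.n 2 (.n 0 (.l 0) (.l 0)) (.l 0)) (.n 0 (.l 0) (.l 0)))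
    [(163208757248, 8589934592), (326417514496, 17179869184), (2061584302080, 687194767360)] rfl (by decide +kernel)
end

mutual
theorem A5_c0_t67 : CovD 1 gA5 [(163208757248, 8589934592), (326417514496, 17179869184), (4123168604160, 1374389534720)] :=
  covD_E kA5_eq (.n 2 (.n 2 (.n 0 (.l 0) (.l 0)) (.l 0)) (.n 0 (.l 0) (.l 0)))
    [(163208757248, 8589934592), (326417514496, 17179869184), (4123168604160, 1374389534720)] rfl (by decide +kernel)
theorem A5_c0_t68 : CovD 1 gA5 [(163208757248, 8589934592), (326417514496, 17179869184), (8246337208320, 2748779069440)] :=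
  covD_E kA5_eq (.n 2 (.n 2 (.l 0) (.l 0)) (.n 0 (.l 0) (.l 0)))
    [(163208757248, 8589934592), (326417514496, 17179869184), (8246337208320, 2748779069440)] rfl (by decide +kernel)
end

mutual
theorem A5_c0_t73 : CovD 1 gA5 [(163208757248, 8589934592), (360777252864, 17179869184), (687194767360, 687194767360)] :=
  covD_E kA5_eq (.n 2 (.n 2 (.n 2 (.n 2 (.l 0) (.l 0)) (.n 2 (.l 0) (.l 0))) (.n 2 (.n 2 (.l 0) (.l 0)) (.n 0 (.l 0) (.l 0)))) (.n 2 (.n 2 (.l 0) (.l 0)) (.n 0 (.l 0) (.l 0))))
    [(163208757248, 8589934592), (360777252864, 17179869184), (687194767360, 687194767360)] rfl (by decide +kernel)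
theorem A5_c0_t74 : CovD 1 gA5 [(163208757248, 8589934592), (395136991232, 17179869184), (687194767360, 687194767360)] :=
  covD_E kA5_eq (.n 2 (.n 2 (.n 2 (.n 2 (.l 0) (.l 0)) (.n 2 (.l 0) (.l 0))) (.n 0 (.n 2 (.l 0) (.l 0)) (.n 2 (.l 0) (.l 0)))) (.n 2 (.n 2 (.l 0) (.l 0)) (.n 0 (.l 0) (.l 0))))
    [(163208757248, 8589934592), (395136991232, 17179869184), (687194767360, 687194767360)] rfl (by decide +kernel)
end

mutual
theorem A5_c0_t75 : CovD 1 gA5 [(163208757248, 8589934592), (377957122048, 34359738368), (2061584302080, 687194767360)] :=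
  covD_E kA5_eq (.n 2 (.n 0 (.n 2 (.l 0) (.l 0)) (.n 2 (.l 0) (.l 0))) (.n 2 (.n 0 (.l 0) (.l 0)) (.l 0)))
    [(163208757248, 8589934592), (377957122048, 34359738368), (2061584302080, 687194767360)] rfl (by decide +kernel)
theorem A5_c0_t76 : CovD 1 gA5 [(163208757248, 8589934592), (377957122048, 34359738368), (4123168604160, 1374389534720)] :=
  covD_E kA5_eq (.n 2 (.n 0 (.n 2 (.l 0) (.l 0)) (.n 2 (.l 0) (.l 0))) (.n 2 (.n 0 (.l 0) (.l 0)) (.l 0)))
    [(163208757248, 8589934592), (377957122048, 34359738368), (4123168604160, 1374389534720)] rfl (by decide +kernel)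
end

mutual
theorem A5_c0_t77 : CovD 1 gA5 [(163208757248, 8589934592), (377957122048, 34359738368), (8246337208320, 2748779069440)] :=
  covD_E kA5_eq (.n 0 (.n 2 (.n 2 (.l 0) (.l 0)) (.l 0)) (.n 2 (.n 2 (.l 0) (.l 0)) (.l 0)))
    [(163208757248, 8589934592), (377957122048, 34359738368), (8246337208320, 2748779069440)] rfl (by decide +kernel)
theorem A5_c0_t83 : CovD 1 gA5 [(163208757248, 8589934592), (429496729600, 17179869184), (687194767360, 687194767360)] :=
  covD_E kA5_eq (.n 2 (.n 2 (.n 2 (.n 2 (.l 0) (.l 0)) (.n 0 (.l 0) (.l 0))) (.n 2 (.n 0 (.l 0) (.l 0)) (.l 0))) (.n 2 (.n 2 (.l 0) (.l 0)) (.n 0 (.l 0) (.l 0))))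
    [(163208757248, 8589934592), (429496729600, 17179869184), (687194767360, 687194767360)] rfl (by decide +kernel)
end

mutual
theorem A5_c0_t84 : CovD 1 gA5 [(163208757248, 8589934592), (463856467968, 17179869184), (687194767360, 687194767360)] :=
  covD_E kA5_eq (.n 2 (.n 2 (.n 0 (.n 2 (.l 0) (.l 0)) (.n 2 (.l 0) (.l 0))) (.n 2 (.n 0 (.l 0) (.l 0)) (.l 0))) (.n 2 (.n 2 (.l 0) (.l 0)) (.l 0)))
    [(163208757248, 8589934592), (463856467968, 17179869184), (687194767360, 687194767360)] rfl (by decide +kernel)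
theorem A5_c0_t85 : CovD 1 gA5 [(163208757248, 8589934592), (446676598784, 34359738368), (2061584302080, 687194767360)] :=
  covD_E kA5_eq (.n 0 (.n 2 (.n 2 (.l 0) (.l 0)) (.l 0)) (.n 2 (.n 2 (.l 0) (.l 0)) (.l 0)))
    [(163208757248, 8589934592), (446676598784, 34359738368), (2061584302080, 687194767360)] rfl (by decide +kernel)
end

mutual
theorem A5_c0_t86 : CovD 1 gA5 [(163208757248, 8589934592), (446676598784, 34359738368), (4123168604160, 1374389534720)] :=
  covD_E kA5_eq (.n 2 (.n 2 (.n 0 (.l 0) (.l 0)) (.l 0)) (.n 0 (.l 0) (.l 0)))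
    [(163208757248, 8589934592), (446676598784, 34359738368), (4123168604160, 1374389534720)] rfl (by decide +kernel)
theorem A5_c0_t87 : CovD 1 gA5 [(163208757248, 8589934592), (446676598784, 34359738368), (8246337208320, 2748779069440)] :=
  covD_E kA5_eq (.n 2 (.n 2 (.n 0 (.l 0) (.l 0)) (.l 0)) (.n 0 (.l 0) (.l 0)))
    [(163208757248, 8589934592), (446676598784, 34359738368), (8246337208320, 2748779069440)] rfl (by decide +kernel)
end

mutual
theorem A5_c0_t91 : CovD 1 gA5 [(163208757248, 8589934592), (498216206336, 17179869184), (1374389534720, 1374389534720)] :=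
  covD_E kA5_eq (.n 2 (.n 2 (.n 2 (.n 0 (.n 2 (.l 0) (.l 0)) (.n 2 (.l 0) (.l 0))) (.n 2 (.l 0) (.l 0))) (.n 2 (.n 0 (.l 0) (.l 0)) (.l 0))) (.n 2 (.n 2 (.l 0) (.l 0)) (.l 0)))
    [(163208757248, 8589934592), (498216206336, 17179869184), (1374389534720, 1374389534720)] rfl (by decide +kernel)
theorem A5_c0_t92 : CovD 1 gA5 [(163208757248, 8589934592), (532575944704, 17179869184), (1374389534720, 1374389534720)] :=
  covD_E kA5_eq (.n 2 (.n 2 (.n 2 (.n 2 (.l 0) (.l 0)) (.n 2 (.l 0) (.l 0))) (.n 2 (.n 0 (.l 0) (.l 0)) (.l 0))) (.n 2 (.n 2 (.l 0) (.l 0)) (.l 0)))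
    [(163208757248, 8589934592), (532575944704, 17179869184), (1374389534720, 1374389534720)] rfl (by decide +kernel)
end

mutual
theorem A5_c0_t93 : CovD 1 gA5 [(163208757248, 8589934592), (515396075520, 34359738368), (4123168604160, 1374389534720)] :=
  covD_E kA5_eq (.n 2 (.n 2 (.n 0 (.l 0) (.l 0)) (.l 0)) (.n 2 (.l 0) (.l 0)))
    [(163208757248, 8589934592), (515396075520, 34359738368), (4123168604160, 1374389534720)] rfl (by decide +kernel)
theorem A5_c0_t94 : CovD 1 gA5 [(163208757248, 8589934592), (515396075520, 34359738368), (8246337208320, 2748779069440)] :=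
  covD_E kA5_eq (.n 2 (.n 2 (.n 0 (.l 0) (.l 0)) (.l 0)) (.n 0 (.l 0) (.l 0)))
    [(163208757248, 8589934592), (515396075520, 34359738368), (8246337208320, 2748779069440)] rfl (by decide +kernel)
end

mutual
theorem B5_c0_t2 : CovD 1 gB5 [(146028888064, 8589934592), (343597383680, 68719476736), (54975791104, 54975791104)] :=
  covD_E kB5_eq (.n 0 (.n 1 (.n 2 (.n 1 (.l 1) (.l 1)) (.n 2 (.l 1) (.l 1))) (.n 2 (.n 2 (.l 1) (.l 1)) (.n 0 (.n 2 (.l 1) (.l 1)) (.n 2 (.l 0) (.l 0))))) (.n 1 (.n 2 (.n 2 (.l 0) (.l 0)) (.n 2 (.l 0) (.l 0))) (.n 2 (.l 0) (.l 0))))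
    [(146028888064, 8589934592), (343597383680, 68719476736), (54975791104, 54975791104)] rfl (by decide +kernel)
theorem B5_c0_t3 : CovD 1 gB5 [(146028888064, 8589934592), (481036337152, 68719476736), (54975791104, 54975791104)] :=
  covD_E kB5_eq (.n 1 (.n 0 (.n 2 (.n 2 (.l 0) (.l 0)) (.n 2 (.l 0) (.l 0))) (.n 2 (.l 0) (.l 0))) (.n 2 (.l 0) (.l 0)))
    [(146028888064, 8589934592), (481036337152, 68719476736), (54975791104, 54975791104)] rfl (by decide +kernel)
end

mutual
theorem B5_c0_t4 : CovD 1 gB5 [(163208757248, 8589934592), (412316860416, 137438953472), (54975791104, 54975791104)] :=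
  covD_E kB5_eq (.n 1 (.n 1 (.n 2 (.l 0) (.n 0 (.l 0) (.l 0))) (.n 0 (.l 0) (.l 0))) (.n 0 (.n 1 (.l 0) (.l 0)) (.n 1 (.l 0) (.l 0))))
    [(163208757248, 8589934592), (412316860416, 137438953472), (54975791104, 54975791104)] rfl (by decide +kernel)
theorem D5_c0_t2 : CovD 1 gD5 [(146028888064, 8589934592), (343597383680, 68719476736), (863554764800, 863554764800)] :=
  covD_E kD5_eq (.n 2 (.n 2 (.n 2 (.l 0) (.l 0)) (.n 2 (.l 0) (.n 0 (.l 0) (.l 0)))) (.n 1 (.n 2 (.n 2 (.l 0) (.l 0)) (.n 2 (.n 2 (.l 0) (.l 0)) (.l 1))) (.n 2 (.n 2 (.l 0) (.l 0)) (.n 2 (.l 0) (.l 1)))))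
    [(146028888064, 8589934592), (343597383680, 68719476736), (863554764800, 863554764800)] rfl (by decide +kernel)
end

mutual
theorem D5_c0_t3 : CovD 1 gD5 [(146028888064, 8589934592), (481036337152, 68719476736), (863554764800, 863554764800)] :=
  covD_E kD5_eq (.n 2 (.n 2 (.n 1 (.l 0) (.l 0)) (.n 2 (.l 0) (.l 0))) (.n 2 (.n 2 (.l 0) (.n 0 (.l 0) (.l 0))) (.n 2 (.n 0 (.l 0) (.l 1)) (.l 1))))
    [(146028888064, 8589934592), (481036337152, 68719476736), (863554764800, 863554764800)] rfl (by decide +kernel)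
theorem D5_c0_t5 : CovD 1 gD5 [(163208757248, 8589934592), (343597383680, 68719476736), (863554764800, 863554764800)] :=
  covD_E kD5_eq (.n 2 (.n 2 (.n 2 (.l 0) (.n 0 (.l 0) (.l 0))) (.n 1 (.n 2 (.l 0) (.l 0)) (.n 2 (.l 0) (.l 0)))) (.n 1 (.n 2 (.n 2 (.l 0) (.l 1)) (.l 1)) (.n 2 (.n 2 (.l 0) (.l 0)) (.l 1))))
    [(163208757248, 8589934592), (343597383680, 68719476736), (863554764800, 863554764800)] rfl (by decide +kernel)
end

mutual
theorem D5_c0_t6 : CovD 1 gD5 [(163208757248, 8589934592), (481036337152, 68719476736), (863554764800, 863554764800)] :=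
  covD_E kD5_eq (.n 2 (.n 2 (.n 2 (.l 0) (.l 0)) (.n 2 (.l 0) (.n 0 (.l 0) (.l 0)))) (.n 2 (.n 2 (.l 1) (.l 1)) (.l 1)))
    [(163208757248, 8589934592), (481036337152, 68719476736), (863554764800, 863554764800)] rfl (by decide +kernel)
theorem E5_c0 : CovD 1 gE5 [(154618822656, 17179869184), (412316860416, 137438953472), (863554764800, 863554764800)] :=
  covD_E kE5_eq (.n 2 (.n 1 (.n 2 (.l 1) (.l 1)) (.n 2 (.l 1) (.l 1))) (.n 1 (.n 1 (.n 2 (.l 1) (.l 1)) (.n 2 (.l 1) (.l 1))) (.n 2 (.l 1) (.n 0 (.l 1) (.l 1)))))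
    [(154618822656, 17179869184), (412316860416, 137438953472), (863554764800, 863554764800)] rfl (by decide +kernel)
end

theorem A5_c0_t7 : CovD 1 gA5 [(146028888064, 8589934592), (292057776128, 17179869184), (687194767360, 687194767360)] :=
  covD_split 2 (by decide +kernel) A5_c0_t8 A5_c0_t9

theorem A5_c0_t6 : CovD 1 gA5 [(146028888064, 8589934592), (292057776128, 17179869184), (1374389534720, 1374389534720)] :=
  covD_split 2 (by decide +kernel) A5_c0_t7 A5_c0_t10

theorem A5_c0_t12 : CovD 1 gA5 [(146028888064, 8589934592), (326417514496, 17179869184), (687194767360, 687194767360)] :=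
  covD_split 2 (by decide +kernel) A5_c0_t13 A5_c0_t14

theorem A5_c0_t11 : CovD 1 gA5 [(146028888064, 8589934592), (326417514496, 17179869184), (1374389534720, 1374389534720)] :=
  covD_split 2 (by decide +kernel) A5_c0_t12 A5_c0_t15

theorem A5_c0_t5 : CovD 1 gA5 [(146028888064, 8589934592), (309237645312, 34359738368), (1374389534720, 1374389534720)] :=
  covD_split 1 (by decide +kernel) A5_c0_t6 A5_c0_t11

theorem A5_c0_t4 : CovD 1 gA5 [(146028888064, 8589934592), (309237645312, 34359738368), (2748779069440, 2748779069440)] :=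
  covD_split 2 (by decide +kernel) A5_c0_t5 A5_c0_t16

theorem A5_c0_t17 : CovD 1 gA5 [(146028888064, 8589934592), (309237645312, 34359738368), (8246337208320, 2748779069440)] :=
  covD_split 0 (by decide +kernel) A5_c0_t18 A5_c0_t19

theorem A5_c0_t3 : CovD 1 gA5 [(146028888064, 8589934592), (309237645312, 34359738368), (5497558138880, 5497558138880)] :=
  covD_split 2 (by decide +kernel) A5_c0_t4 A5_c0_t17

theorem A5_c0_t23 : CovD 1 gA5 [(146028888064, 8589934592), (360777252864, 17179869184), (1374389534720, 1374389534720)] :=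
  covD_split 2 (by decide +kernel) A5_c0_t24 A5_c0_t25

theorem A5_c0_t22 : CovD 1 gA5 [(146028888064, 8589934592), (377957122048, 34359738368), (1374389534720, 1374389534720)] :=
  covD_split 1 (by decide +kernel) A5_c0_t23 A5_c0_t26

theorem A5_c0_t21 : CovD 1 gA5 [(146028888064, 8589934592), (377957122048, 34359738368), (2748779069440, 2748779069440)] :=
  covD_split 2 (by decide +kernel) A5_c0_t22 A5_c0_t27

theorem A5_c0_t20 : CovD 1 gA5 [(146028888064, 8589934592), (377957122048, 34359738368), (5497558138880, 5497558138880)] :=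
  covD_split 2 (by decide +kernel) A5_c0_t21 A5_c0_t28

theorem A5_c0_t2 : CovD 1 gA5 [(146028888064, 8589934592), (343597383680, 68719476736), (5497558138880, 5497558138880)] :=
  covD_split 1 (by decide +kernel) A5_c0_t3 A5_c0_t20

theorem A5_c0_t33 : CovD 1 gA5 [(146028888064, 8589934592), (446676598784, 34359738368), (687194767360, 687194767360)] :=
  covD_split 1 (by decide +kernel) A5_c0_t34 A5_c0_t35

theorem A5_c0_t32 : CovD 1 gA5 [(146028888064, 8589934592), (446676598784, 34359738368), (1374389534720, 1374389534720)] :=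
  covD_split 2 (by decide +kernel) A5_c0_t33 A5_c0_t36

theorem A5_c0_t31 : CovD 1 gA5 [(146028888064, 8589934592), (446676598784, 34359738368), (2748779069440, 2748779069440)] :=
  covD_split 2 (by decide +kernel) A5_c0_t32 A5_c0_t37

theorem A5_c0_t30 : CovD 1 gA5 [(146028888064, 8589934592), (446676598784, 34359738368), (5497558138880, 5497558138880)] :=
  covD_split 2 (by decide +kernel) A5_c0_t31 A5_c0_t38

theorem A5_c0_t42 : CovD 1 gA5 [(146028888064, 8589934592), (515396075520, 34359738368), (687194767360, 687194767360)] :=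
  covD_split 2 (by decide +kernel) A5_c0_t43 A5_c0_t44

theorem A5_c0_t41 : CovD 1 gA5 [(146028888064, 8589934592), (515396075520, 34359738368), (1374389534720, 1374389534720)] :=
  covD_split 2 (by decide +kernel) A5_c0_t42 A5_c0_t45

theorem A5_c0_t40 : CovD 1 gA5 [(146028888064, 8589934592), (515396075520, 34359738368), (2748779069440, 2748779069440)] :=
  covD_split 2 (by decide +kernel) A5_c0_t41 A5_c0_t46

theorem A5_c0_t39 : CovD 1 gA5 [(146028888064, 8589934592), (515396075520, 34359738368), (5497558138880, 5497558138880)] :=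
  covD_split 2 (by decide +kernel) A5_c0_t40 A5_c0_t47

theorem A5_c0_t29 : CovD 1 gA5 [(146028888064, 8589934592), (481036337152, 68719476736), (5497558138880, 5497558138880)] :=
  covD_split 1 (by decide +kernel) A5_c0_t30 A5_c0_t39

theorem A5_c0_t1 : CovD 1 gA5 [(146028888064, 8589934592), (412316860416, 137438953472), (5497558138880, 5497558138880)] :=
  covD_split 1 (by decide +kernel) A5_c0_t2 A5_c0_t29

theorem A5_c0_t54 : CovD 1 gA5 [(163208757248, 8589934592), (292057776128, 17179869184), (687194767360, 687194767360)] :=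
  covD_split 2 (by decide +kernel) A5_c0_t55 A5_c0_t56

theorem A5_c0_t53 : CovD 1 gA5 [(163208757248, 8589934592), (292057776128, 17179869184), (1374389534720, 1374389534720)] :=
  covD_split 2 (by decide +kernel) A5_c0_t54 A5_c0_t57

theorem A5_c0_t52 : CovD 1 gA5 [(163208757248, 8589934592), (292057776128, 17179869184), (2748779069440, 2748779069440)] :=
  covD_split 2 (by decide +kernel) A5_c0_t53 A5_c0_t58

theorem A5_c0_t51 : CovD 1 gA5 [(163208757248, 8589934592), (292057776128, 17179869184), (5497558138880, 5497558138880)] :=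
  covD_split 2 (by decide +kernel) A5_c0_t52 A5_c0_t59

theorem A5_c0_t63 : CovD 1 gA5 [(163208757248, 8589934592), (326417514496, 17179869184), (687194767360, 687194767360)] :=
  covD_split 2 (by decide +kernel) A5_c0_t64 A5_c0_t65

theorem A5_c0_t62 : CovD 1 gA5 [(163208757248, 8589934592), (326417514496, 17179869184), (1374389534720, 1374389534720)] :=
  covD_split 2 (by decide +kernel) A5_c0_t63 A5_c0_t66

theorem A5_c0_t61 : CovD 1 gA5 [(163208757248, 8589934592), (326417514496, 17179869184), (2748779069440, 2748779069440)] :=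
  covD_split 2 (by decide +kernel) A5_c0_t62 A5_c0_t67

theorem A5_c0_t60 : CovD 1 gA5 [(163208757248, 8589934592), (326417514496, 17179869184), (5497558138880, 5497558138880)] :=
  covD_split 2 (by decide +kernel) A5_c0_t61 A5_c0_t68

theorem A5_c0_t50 : CovD 1 gA5 [(163208757248, 8589934592), (309237645312, 34359738368), (5497558138880, 5497558138880)] :=
  covD_split 1 (by decide +kernel) A5_c0_t51 A5_c0_t60

theorem A5_c0_t72 : CovD 1 gA5 [(163208757248, 8589934592), (377957122048, 34359738368), (687194767360, 687194767360)] :=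
  covD_split 1 (by decide +kernel) A5_c0_t73 A5_c0_t74

theorem A5_c0_t71 : CovD 1 gA5 [(163208757248, 8589934592), (377957122048, 34359738368), (1374389534720, 1374389534720)] :=
  covD_split 2 (by decide +kernel) A5_c0_t72 A5_c0_t75

theorem A5_c0_t70 : CovD 1 gA5 [(163208757248, 8589934592), (377957122048, 34359738368), (2748779069440, 2748779069440)] :=
  covD_split 2 (by decide +kernel) A5_c0_t71 A5_c0_t76

theorem A5_c0_t69 : CovD 1 gA5 [(163208757248, 8589934592), (377957122048, 34359738368), (5497558138880, 5497558138880)] :=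
  covD_split 2 (by decide +kernel) A5_c0_t70 A5_c0_t77

theorem A5_c0_t49 : CovD 1 gA5 [(163208757248, 8589934592), (343597383680, 68719476736), (5497558138880, 5497558138880)] :=
  covD_split 1 (by decide +kernel) A5_c0_t50 A5_c0_t69

theorem A5_c0_t82 : CovD 1 gA5 [(163208757248, 8589934592), (446676598784, 34359738368), (687194767360, 687194767360)] :=
  covD_split 1 (by decide +kernel) A5_c0_t83 A5_c0_t84

theorem A5_c0_t81 : CovD 1 gA5 [(163208757248, 8589934592), (446676598784, 34359738368), (1374389534720, 1374389534720)] :=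
  covD_split 2 (by decide +kernel) A5_c0_t82 A5_c0_t85

theorem A5_c0_t80 : CovD 1 gA5 [(163208757248, 8589934592), (446676598784, 34359738368), (2748779069440, 2748779069440)] :=
  covD_split 2 (by decide +kernel) A5_c0_t81 A5_c0_t86

theorem A5_c0_t79 : CovD 1 gA5 [(163208757248, 8589934592), (446676598784, 34359738368), (5497558138880, 5497558138880)] :=
  covD_split 2 (by decide +kernel) A5_c0_t80 A5_c0_t87

theorem A5_c0_t90 : CovD 1 gA5 [(163208757248, 8589934592), (515396075520, 34359738368), (1374389534720, 1374389534720)] :=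
  covD_split 1 (by decide +kernel) A5_c0_t91 A5_c0_t92

theorem A5_c0_t89 : CovD 1 gA5 [(163208757248, 8589934592), (515396075520, 34359738368), (2748779069440, 2748779069440)] :=
  covD_split 2 (by decide +kernel) A5_c0_t90 A5_c0_t93

theorem A5_c0_t88 : CovD 1 gA5 [(163208757248, 8589934592), (515396075520, 34359738368), (5497558138880, 5497558138880)] :=
  covD_split 2 (by decide +kernel) A5_c0_t89 A5_c0_t94

theorem A5_c0_t78 : CovD 1 gA5 [(163208757248, 8589934592), (481036337152, 68719476736), (5497558138880, 5497558138880)] :=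
  covD_split 1 (by decide +kernel) A5_c0_t79 A5_c0_t88

theorem A5_c0_t48 : CovD 1 gA5 [(163208757248, 8589934592), (412316860416, 137438953472), (5497558138880, 5497558138880)] :=
  covD_split 1 (by decide +kernel) A5_c0_t49 A5_c0_t78

theorem A5_c0 : CovD 1 gA5 [(154618822656, 17179869184), (412316860416, 137438953472), (5497558138880, 5497558138880)] :=
  covD_split 0 (by decide +kernel) A5_c0_t1 A5_c0_t48

theorem B5_c0_t1 : CovD 1 gB5 [(146028888064, 8589934592), (412316860416, 137438953472), (54975791104, 54975791104)] :=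
  covD_split 1 (by decide +kernel) B5_c0_t2 B5_c0_t3

theorem B5_c0 : CovD 1 gB5 [(154618822656, 17179869184), (412316860416, 137438953472), (54975791104, 54975791104)] :=
  covD_split 0 (by decide +kernel) B5_c0_t1 B5_c0_t4

theorem D5_c0_t1 : CovD 1 gD5 [(146028888064, 8589934592), (412316860416, 137438953472), (863554764800, 863554764800)] :=
  covD_split 1 (by decide +kernel) D5_c0_t2 D5_c0_t3

theorem D5_c0_t4 : CovD 1 gD5 [(163208757248, 8589934592), (412316860416, 137438953472), (863554764800, 863554764800)] :=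
  covD_split 1 (by decide +kernel) D5_c0_t5 D5_c0_t6

theorem D5_c0 : CovD 1 gD5 [(154618822656, 17179869184), (412316860416, 137438953472), (863554764800, 863554764800)] :=
  covD_split 0 (by decide +kernel) D5_c0_t1 D5_c0_t4

end Pool.Agent.helper14.NR.E6b
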