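import Pool.Agent.helper63.NF.Cert

/-!
Generated: table E6b.
-/

namespace Pool.Agent.helper14.NR.E6b

open Pool.Agent.helper63.NF

def tab : TD where
  strip := false
  bm := none
  ec := 154618822656
  bc := 412316860416
  H := [[[25095907392, 50324401664, -19212425152, 167102785024], [318751865920, 256713728320, 138951126592], [-1590649786048, 560230192320], [7954560241216]], [[14686733568, -21240877504, 9700210176], [-22713134464, -107354358208], [969546707712]], [[-7635691264, 1848106880], [-9092845312]], [[1147299584]], [[-79408256]]]
  pol := none
  a := [[[380282142720, 168692744192, -1729619689472, -5742392901632], [-1223014612992, -10531887644672]], [[225241792512, 41089302528, -674580004864, -2652614819840], [137640280064, -3541979561984]], [[198542163968, 15602745344, -722301681664, -1926394806272], [440209244160, -2209647099904]], [[166717489152, -8611299328, -717003096064, -1434184450048], [589345521664, -1094657835008]], [[136178696192, -22920298496, -548591239168, -146551013376], [574205657088, -779675500544]], [[105693642752, -19471269888, -353038499840, -178069569536], [470861086720, -676838309888]]]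
  j := [11544872091648, 15118284881920, 14843406974976, 13606456393728, 11682311045120, 8796093022208]
  c := [879662989312, 879662989312, 659814350848, 549755813888, 439697276928, 329907175424]
  M := [[[[1105616240640, 74147430400, 221101621248], [-248860704768, 2009082888192], [6386270863360]], [[277847867392, 58034356224], [5709845168128]], [[702143135744, -98519416832], [-4360772386816]], [[-1088816873472]], [[710236241920]], [[-277121531904]]], [[[1097268461568, 95382405120, 121735544832], [216427462656]], [[101622415360, 2534342656], [638846763008]], [[-5927469056]], [[342163456]]], [[[1100280102912, 84584824832, 158357389312], [205341065216]], [[96757940224, 4391436288], [621762641920]], [[-4359192576]], [[124518400]]], [[[1102653358080, 74622304256, 138181476352], [161186054144]], [[93108502528, 6281822208], [636977283072]], [[-2880700416]], [[-91553792]]], [[[1104136372224, 68093804544, 112462987264], [124993208320]], [[90722271232, 8223260672], [654465433600]], [[-1749352448]], [[-248905728]]], [[[1102146437120, 58178600960, 111878799360], [83955810304]], [[89429704704, 10067836928], [674677850112]], [[-226557952]], [[-546832384]]]]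
  l0 := [[[3683964823360, 105875494080, -199510520128], [4473922119232, -1771920387712], [372621024256]], [[200837616960, -596697978944, 3829913344], [-21532776117952, 498263965184], [-30897725983808]], [[-1563196422336, 1020361501056], [9250078683520]], [[2030849780352, -919610667584], [-15535647022848]], [[-2106849419520, 495992850880], [7777786857728]], [[911124849664]], [[-14252561856]], [[-238998872512]]]
  q0 := [[232167708032, 640827377600, 93039607168, -585115015744], [1295918217216, 5761036072000, -5851514123456], [-7106880420992, -40005395272768], [-180294678913152]]
  t := [[[1557329281024, 979501252608, 853842132992, 1134230044672], [-803611017216, 10350288764928]], [[892822421504, 667266449408, 1258011688960, 274726060032], [1857297514496, 6978986835968]], [[838000246784, 492559925248, 1017011568640, 111310405632], [1315159146496, 4816310566912]], [[785149591552, 347260911616, 275119079424, -140253593600], [1322761715712, 2829970440192]], [[793168052224, 354380021760, -586205560832, 469481947136], [2053882445824, 934101778432]], [[888931745792, 790623485952, -1035647713280, -1972811595776], [4128152944640, 5701153325056]]]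
  y := [15546707869696, 14100377632768, 10202694811648, 6966436954112, 4857608011776, 3522946924544]
  sc := [0, 0, 0, 0, 0, 0]
  L := [(0, 2), (0, 3), (1, 1), (1, 2), (2, 0), (2, 1), (3, 0)]
  Lt := [(0, 2), (0, 3), (1, 1)]
  far := 1
  x2 := 10775213113344
  B1 := 659706347520
  C2 := 1327712154624
  f1 := 769658138624
  f2 := 0
  f3 := 0
  is1 := 8796093022208
  s1 := 137438953472

end Pool.Agent.helper14.NR.E6b
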